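import Pool.Agent.TH466.QG.Low

/-!
Intermediate fields of finitely generated extensions are finitely generated.
-/

set_option autoImplicit false
set_option maxHeartbeats 400000
set_option linter.overlappingInstances false
set_option linter.unusedSectionVars false

open FF IntermediateField

namespace Pool.Agent.Y221.CF

open Pool.Agent.TH466.QG

theorem ess_sub (j : ℕ) : ∀ {k L : Type} [Field k] [CharZero k] [Field L] [Algebra k L]
    [Algebra.EssFiniteType k L] (M : IntermediateField k L), Algebra.trdeg M L = j →
    Algebra.EssFiniteType k M := by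
  induction j with
  | zero =>
    intro k L _ _ _ _ _ M h
    rw [Nat.cast_zero, trdeg_eq_zero_iff] at h
    have h1 : Algebra.EssFiniteType M L := Algebra.EssFiniteType.of_comp k M L
    have h2 : FiniteDimensional M L := Algebra.finite_of_essFiniteType_of_isAlgebraic
    exact ess_below (K := L)
  | succ j ih =>
    intro k L _ _ _ _ _ M h
    obtain ⟨σ, hσ⟩ : ∃ σ : L, Transcendental M σ := by
      by_contra hcon
      push Not at hcon
      have h1 : Algebra.IsAlgebraic M L := ⟨fun z => by
        have h2 := hcon z
        rwa [Transcendental, not_not] at h2⟩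
      rw [← trdeg_eq_zero_iff, h] at h1
      exact absurd h1 (by exact_mod_cast Nat.succ_ne_zero j)
    have hM0 : CharZero M := charZero_of_injective_algebraMap (algebraMap k M).injective
    have hff : IsFF M M⟮σ⟯ := by
      refine IsFF.of_finite (f := AdjoinSimple.gen M σ) ?_ ?_
      · intro h1
        exact hσ (h1.algHom (M⟮σ⟯).val)
      · have h1 : M⟮AdjoinSimple.gen M σ⟯ = ⊤ := by
          apply IntermediateField.lift_injective M⟮σ⟯
          rw [IntermediateField.lift_adjoin_simple, IntermediateField.lift_top]
          rfl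
        rw [h1]
        exact Module.Finite.of_surjective
          (Algebra.linearMap (⊤ : IntermediateField M M⟮σ⟯) M⟮σ⟯) fun z => ⟨⟨z, trivial⟩, rfl⟩
    obtain ⟨M', hM'⟩ : ∃ M' : IntermediateField k L, M' = (M⟮σ⟯).restrictScalars k := ⟨_, rfl⟩
    have hMM' : ∀ z ∈ M, z ∈ M' := by
      intro z hz
      rw [hM']
      exact (M⟮σ⟯).algebraMap_mem ⟨z, hz⟩
    have hσM' : σ ∈ M' := by
      rw [hM']
      exact mem_adjoin_simple_self M σ
    have htr : Algebra.trdeg M' L = j := by
      have h1 : Algebra.trdeg M' L = Algebra.trdeg M⟮σ⟯ L := by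
        subst hM'
        rfl
      have h2 := trdeg_add_eq M M⟮σ⟯ (A := L)
      rw [hff.trdeg, h] at h2
      rw [h1]
      have h3 : Algebra.trdeg M⟮σ⟯ L < Cardinal.aleph0 := by
        have h4 : Algebra.trdeg M⟮σ⟯ L ≤ ((j + 1 : ℕ) : Cardinal) := by
          rw [← h2]
          exact self_le_add_left _ _
        exact h4.trans_lt Cardinal.natCast_lt_aleph0
      obtain ⟨c, hc⟩ := Cardinal.lt_aleph0.1 h3
      rw [hc] at h2 ⊢
      have h5 : 1 + c = j + 1 := by exact_mod_cast h2
      have h6 : c = j := by omega
      rw [h6]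
    have hess : Algebra.EssFiniteType k M' := ih M' htr
    let C : IntermediateField k M' := M.comap M'.val
    let σ' : M' := ⟨σ, hσM'⟩
    let f : C →ₐ[k] M := (M'.val.comp C.val).codRestrict M.toSubalgebra fun z => z.2
    let e : C ≃ₐ[k] M := AlgEquiv.ofBijective f ⟨f.toRingHom.injective, fun z =>
          ⟨⟨⟨z, hMM' z z.2⟩, z.2⟩, Subtype.ext rfl⟩⟩
    have hσ' : Transcendental C σ' := by
      intro ⟨p, hp0, hp⟩
      apply hσ
      refine ⟨p.map f.toRingHom, ?_, ?_⟩
      · exact Polynomial.map_ne_zero hp0
      · have h1 := congrArg (algebraMap M' L) hp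
        rw [map_zero] at h1
        rw [← h1, Polynomial.aeval_def, Polynomial.aeval_def, Polynomial.eval₂_map,
          Polynomial.hom_eval₂]
        rfl
    have htop : C⟮σ'⟯ = ⊤ := by
      rw [eq_top_iff]
      rintro ⟨z, hz⟩ -
      have hz' : z ∈ M⟮σ⟯ := by
        rw [hM'] at hz
        exact hz
      have key : ∀ z ∈ M⟮σ⟯, ∀ hz : z ∈ M', (⟨z, hz⟩ : M') ∈ C⟮σ'⟯ := by
        intro z hz
        induction hz using IntermediateField.adjoin_induction with
        | mem z hz =>
          intro h1
          rw [Set.mem_singleton_iff] at hz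
          subst hz
          exact mem_adjoin_simple_self C σ'
        | algebraMap c =>
          intro h1
          exact (C⟮σ'⟯).algebraMap_mem ⟨⟨c, hMM' c c.2⟩, c.2⟩
        | add x y hx0 hy0 hx hy =>
          intro h1
          have hx1 : x ∈ M' := by rw [hM']; exact hx0
          have hy1 : y ∈ M' := by rw [hM']; exact hy0
          exact add_mem (hx hx1) (hy hy1)
        | inv x hx0 hx =>
          intro h1
          have hx1 : x ∈ M' := by rw [hM']; exact hx0
          exact inv_mem (hx hx1)
        | mul x y hx0 hy0 hx hy =>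
          intro h1
          have hx1 : x ∈ M' := by rw [hM']; exact hx0
          have hy1 : y ∈ M' := by rw [hM']; exact hy0
          exact mul_mem (hx hx1) (hy hy1)
      exact key z hz' hz
    have h1 : Algebra.EssFiniteType k C := ess_base C hσ' htop
    exact (Algebra.EssFiniteType.iff_of_algEquiv e).1 h1

theorem ess_inter {k L : Type} [Field k] [CharZero k] [Field L] [Algebra k L]
    [Algebra.EssFiniteType k L] (M : IntermediateField k L) : Algebra.EssFiniteType k M := by
  have h1 : Algebra.trdeg M L ≤ Algebra.trdeg k L := by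
    rw [← trdeg_add_eq k M (A := L)]
    exact self_le_add_left _ _
  have h2 : Algebra.trdeg k L < Cardinal.aleph0 := trdeg_lt_aleph0 k L
  obtain ⟨j, hj⟩ := Cardinal.lt_aleph0.1 (h1.trans_lt h2)
  exact ess_sub j M hj

end Pool.Agent.Y221.CF
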