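import Pool.Agent.Y221.CF.Hgt
import Pool.Agent.Y564.CF.War
import Pool.Agent.Y657.CF.Spa
import Pool.Agent.Y221.CF.Ess
import Pool.Agent.Y98.CF.Sub

/-!
The core fibration of the varieties which are dominated by systems of high powers.
-/

set_option autoImplicit false
set_option maxHeartbeats 400000
set_option linter.overlappingInstances false
set_option linter.unusedSectionVars false

open FF IntermediateField Pool.Agent.W603.LV

namespace Pool.Agent.Y221.CF

open Pool.Agent.W602.GT Pool.Agent.TH466.QG Pool.Agent.TH466.QT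
open Pool.Agent.Y221.AB (NB one_le_NB)
open Pool.Agent.W619.TW (TensorVanish IsUnirational)
open Pool.Agent.Y221.PB (nums)

variable {k : Type} [Field k] [CharZero k] [IsAlgClosed k] {n : ℕ} {ι : Type}
  {F : ι → MvPolynomial (Fin (n + 1)) k} {s N w r : ℕ} {K L : Type} [Field K] [Field L]
  [Algebra k K] [Algebra k L] [Algebra L K] [IsScalarTower k L K] [FiniteDimensional L K]

/-- An element on which all derivations over a field vanish is algebraic over it. -/
theorem alg_of_der (S : Set K) {z : K}
    (h : ∀ D : Derivation k K K, (∀ x ∈ S, D x = 0) → D z = 0) :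
    IsAlgebraic (IntermediateField.adjoin k S) z := by
  by_contra hz
  have hz' : Transcendental (IntermediateField.adjoin k S) z := hz
  have hchar : CharZero (IntermediateField.adjoin k S) :=
    charZero_of_injective_algebraMap (algebraMap k _).injective
  have h1 : AlgebraicIndepOn (IntermediateField.adjoin k S) id ({z} : Set K) := by
    have : Unique ({z} : Set K) := Set.uniqueSingleton z
    rw [AlgebraicIndepOn, algebraicIndependent_unique_type_iff]
    have hd : ((default : ({z} : Set K)) : K) = z := Set.mem_singleton_iff.1 (default : ({z} : Set K)).2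
    change Transcendental _ ((default : ({z} : Set K)) : K)
    rw [hd]
    exact hz'
  obtain ⟨t, hzt, ht⟩ := exists_isTranscendenceBasis_superset h1
  obtain ⟨D, hD⟩ := exists_der (fun x : t => (x : K)) ht (fun _ => 1)
  have h2 : (D.restrictScalars k) z = 1 := hD ⟨z, hzt rfl⟩
  rw [h (D.restrictScalars k) (fun y hy => by
    have h3 : y = algebraMap (IntermediateField.adjoin k S) K
      ⟨y, IntermediateField.subset_adjoin k S hy⟩ := rfl
    change D y = 0
    rw [h3]
    exact D.map_algebraMap _)] at h2
  exact zero_ne_one h2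

/-- The coefficients of the minimal polynomials of the ratios of the members of circuits. -/
theorem coeff_mem (hF : HighPowers s N F) (hN1 : 1 ≤ N) (hNB : NB r s ≤ N)
    {y : Fin (n + 1) → K} (hy : SubVar F K w y) (hcomp : IsComponent F y)
    (hr : Module.finrank L K ≤ r) {x : K} (hx : x ∈ cr k K s N) (i : ℕ) :
    algebraMap L K ((minpoly L x).coeff i) ∈ E0 k K s N := by
  rw [mem_E0]
  refine alg_of_der _ fun D hD => ?_
  obtain ⟨t, c, δ, hδ, hDδ⟩ : ∃ (t : ℕ) (c : Fin t → K) (δ : Fin t → Derivation k K K),
      (∀ i, RulDer k (δ i)) ∧ ∀ x, D x = ∑ i, c i * δ i x := by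
    rcases hF with h | h
    · exact Pool.Agent.Y564.CF.war k n ι F s N h hN1 K w y hy hcomp D hD
    · exact Pool.Agent.Y657.CF.spa k n ι F s N h K w y hy hcomp D hD
  rw [hDδ]
  refine Finset.sum_eq_zero fun j _ => ?_
  rw [hgt k K L s N r hr hNB x hx (δ j) (hδ j) i, mul_zero]

/-- **The core fibration.** The number `b` depends only on the dominating component. -/
theorem core_main (hF : HighPowers s N F) (hN1 : 1 ≤ N)
    (hNB : NB r s ≤ N) (hN : r * (w * ((s + 4) * ((s - 1) * (s - 2) / 2))) ≤ N)
    {K : Type} [Field K] [Algebra k K] {y : Fin (n + 1) → K} (hy : SubVar F K w y)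
    (hcomp : IsComponent F y) :
    (∃ t : Fin w → K, AlgebraicIndependent k t ∧
        IntermediateField.adjoin k (Set.range t) = ⊤) ∨
      ∃ b : ℕ, 1 ≤ b ∧ b ≤ w ∧ ∀ (L : Type) [Field L] [Algebra k L] [Algebra L K]
        [IsScalarTower k L K] [FiniteDimensional L K], Module.finrank L K ≤ r →
        (∃ M : IntermediateField k L, GeneralType k M b) ∧
        ¬ TensorVanish k L w ∧ ¬ Special k L w (fun _ => False) := by
  by_cases hcr : ∀ x ∈ cr k K s N, ∃ c : k, algebraMap k K c = x
  · left
    rcases hF with hF | hF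
    · exact rational_of_linear hy hcomp (waring_const hF hN1 hy.mem hcr)
    · exact rational_of_sparse hF hy hcomp hcr
  · right
    push Not at hcr
    obtain ⟨x, hx, hxc⟩ := hcr
    have hle := trdeg_le_of_injective (E0 k K s N).val (E0 k K s N).val.toRingHom.injective
    rw [hy.dim] at hle
    obtain ⟨b, hb⟩ := Cardinal.lt_aleph0.1 (hle.trans_lt Cardinal.natCast_lt_aleph0)
    have hb1 : 1 ≤ b := by
      rw [Nat.one_le_iff_ne_zero]
      rintro rfl
      rw [Nat.cast_zero, trdeg_eq_zero_iff] at hb
      have h1 : x ∈ E0 k K s N :=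
        adjoin_le_E0 (IntermediateField.subset_adjoin k _ hx)
      have h2 : IsAlgebraic k (⟨x, h1⟩ : E0 k K s N) := hb.isAlgebraic _
      obtain ⟨c, hc⟩ := const_of_alg h2
      exact hxc c (congrArg (fun z : E0 k K s N => (z : K)) hc)
    have hbw : b ≤ w := by
      rw [hb] at hle
      exact_mod_cast hle
    refine ⟨b, hb1, hbw, ?_⟩
    intro L _ _ _ _ _ hr
    have hL : Algebra.trdeg k L = w := by
      rw [← hy.dim]
      exact trdeg_alg.symm
    obtain ⟨-, M, hM⟩ := Pool.Agent.Y98.CF.sub k K L s N r w b hN1 hr hy.dim hb hb1 hN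
      fun x hx i => coeff_mem hF hN1 hNB hy hcomp hr hx i
    have hKe : Algebra.EssFiniteType k K := SubVar.ess hy
    have hLe : Algebra.EssFiniteType k L := ess_below (K := K)
    have hMe : Algebra.EssFiniteType k M := ess_inter M
    refine ⟨⟨M, hM⟩, ?_, not_special hL M hb1 hM⟩
    obtain ⟨htr, m, hm, ω, hω, hreg, D, hD0, -⟩ := hM
    exact not_vanish hL M htr hb1 hm (ω 0) (hω 0) (fun u hu => hreg u hu 0) D hD0

end Pool.Agent.Y221.CF
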