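import Pool.Agent.TH466.QG.Top

/-!
Abundance for the varieties in correspondence with systems of high powers.
-/

set_option autoImplicit false
set_option maxHeartbeats 400000
set_option linter.overlappingInstances false
set_option linter.unusedSectionVars false

open FF IntermediateField

namespace Pool.Agent.Y221.CF

open Pool.Agent.W602.GT (GeneralType Psef KodGe Ruled HighPowers SubVar IsComponent coords
  kod_of_general psef_of_kodGe not_psef_of essFinite)
open Pool.Agent.W619.PQ (IsUniruled)
open Pool.Agent.W619.TW (NumNeg)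
open Pool.Agent.TH466.QG

variable {k : Type} [Field k] [CharZero k] [IsAlgClosed k] {n : ℕ} {ι : Type}
  {F : ι → MvPolynomial (Fin (n + 1)) k} {s N w r : ℕ}

theorem abu_curve (hF : HighPowers s N F) (hN1 : 1 ≤ N) (hw : 1 ≤ w)
    (hN : r * (w * ((s + 4) * ((s - 1) * (s - 2) / 2))) ≤ N) {K K' L : Type} [Field K] [Field K']
    [Field L] [Algebra k K] [Algebra k K'] [Algebra k L] [Algebra K K'] [Algebra L K']
    [IsScalarTower k K K'] [IsScalarTower k L K'] [Algebra.IsAlgebraic K K']
    [FiniteDimensional L K'] {y : Fin (n + 1) → K} (hy : SubVar F K w y) (hc : ¬ RatCurve F y)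
    (hr : Module.finrank L K' ≤ r) :
    GeneralType k L w ∧ KodGe k L w (fun _ => False) 0 ∧ Psef k L w (fun _ => False) := by
  have hgen : Algebra.IsAlgebraic (coords k y) K := by
    rw [hy.gen]
    infer_instance
  have h1 : GeneralType k L w := by
    rcases circ_or_curve hF hN1 hy.dim hy.ne hgen hy.mem with h | h
    · exact general_corr (K := K) (K' := K') hw h hr hN
    · exact absurd h hc
  exact ⟨h1, kod_of_general h1, psef_of_kodGe (kod_of_general h1)⟩

theorem abu_corr (hF : HighPowers s N F) (hN1 : 1 ≤ N) (hw : 1 ≤ w)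
    (hN : r * (w * ((s + 4) * ((s - 1) * (s - 2) / 2))) ≤ N) {K K' L : Type} [Field K] [Field K']
    [Field L] [Algebra k K] [Algebra k K'] [Algebra k L] [Algebra K K'] [Algebra L K']
    [IsScalarTower k K K'] [IsScalarTower k L K'] [Algebra.IsAlgebraic K K']
    [FiniteDimensional L K'] {y : Fin (n + 1) → K} (hy : SubVar F K w y)
    (hcomp : IsComponent F y) (hR : ¬ Ruled k K) (hr : Module.finrank L K' ≤ r) :
    GeneralType k L w ∧ KodGe k L w (fun _ => False) 0 ∧ Psef k L w (fun _ => False) := by
  have h1 : GeneralType k L w := by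
    rcases circ_or_ruled hF hN1 hy hcomp with h | h
    · exact general_corr (K := K) (K' := K') hw h hr hN
    · exact absurd h hR
  exact ⟨h1, kod_of_general h1, psef_of_kodGe (kod_of_general h1)⟩

theorem not_uniruled {K' L : Type} [Field K'] [Field L] [Algebra k K'] [Algebra k L]
    [Algebra L K'] [IsScalarTower k L K'] [FiniteDimensional L K'] [Algebra.EssFiniteType k K']
    (h : GeneralType k L w) : ¬ IsUniruled k L w := by
  intro hU
  have hL : Algebra.EssFiniteType k L := ess_below (K := K')
  obtain ⟨h2, h3⟩ := Pool.Agent.W619.Y.uniruled_neg w h.1 hU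
  exact h2 ((psef_iff w).1 (psef_of_kodGe (kod_of_general h)))

theorem abu_comp (hF : HighPowers s N F) (hN1 : 1 ≤ N) (hw : 1 ≤ w)
    (hN : r * (w * ((s + 4) * ((s - 1) * (s - 2) / 2))) ≤ N) {K L : Type} [Field K]
    [Field L] [Algebra k K] [Algebra k L] [Algebra L K] [IsScalarTower k L K]
    [FiniteDimensional L K] {y : Fin (n + 1) → K} (hy : SubVar F K w y)
    (hcomp : IsComponent F y) (hr : Module.finrank L K ≤ r) :
    [Psef k L w (fun _ => False), KodGe k L w (fun _ => False) 0, GeneralType k L w,
      ¬ IsUniruled k L w, ¬ Ruled k K].TFAE ∧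
    (¬ Psef k L w (fun _ => False) → NumNeg k L w (fun _ => False)) := by
  have hK : Algebra.EssFiniteType k K := SubVar.ess hy
  have hneg : Ruled k K → IsUniruled k L w ∧ ¬ Psef k L w (fun _ => False) ∧
      NumNeg k L w (fun _ => False) := fun hR => neg_below hy.dim hR
  have hL : Algebra.EssFiniteType k L := ess_below (K := K)
  have hLdim : Algebra.trdeg k L = w := by
    rw [← hy.dim, ← trdeg_add_eq k L (A := K)]
    have h1 : Algebra.trdeg L K = 0 := by
      rw [trdeg_eq_zero_iff]
      infer_instance
    rw [h1, add_zero]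
  refine ⟨?_, fun h => (hneg ?_).2.2⟩
  · tfae_have 3 → 2 := fun h => kod_of_general h
    tfae_have 2 → 1 := fun h => psef_of_kodGe h
    tfae_have 1 → 5 := fun h hR => (hneg hR).2.1 h
    tfae_have 5 → 3 := fun h => (abu_corr (K := K) (K' := K) hF hN1 hw hN hy hcomp h hr).1
    tfae_have 4 → 5 := fun h hR => h (hneg hR).1
    tfae_have 1 → 4 := fun h hU => by
      obtain ⟨h2, h3⟩ := Pool.Agent.W619.Y.uniruled_neg w hLdim hU
      exact h2 ((psef_iff w).1 h)
    tfae_finish
  · by_contra hR
    exact h (abu_corr (K := K) (K' := K) hF hN1 hw hN hy hcomp hR hr).2.2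

end Pool.Agent.Y221.CF
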