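import Pool.Agent.Y221.CF.Stm
import Pool.Agent.W619.PQ.Curve

/-!
The ratios of the members of circuits are constant along rulings, also their conjugates over
subfields of small index.
-/

set_option autoImplicit false
set_option maxHeartbeats 400000
set_option linter.overlappingInstances false
set_option linter.unusedSectionVars false

open FF IntermediateField Pool.Agent.W603.LV Pool.Agent.W603.PV

namespace Pool.Agent.Y221.CF

open Pool.Agent.W602.GT Pool.Agent.TH466.QG Pool.Agent.TH466.QT
open Pool.Agent.Y221.AB (NB)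
open Pool.Agent.Y221.AH (blocks)

/-- Circuits over an extension of degree at most `r` of a rational function field are constant. -/
theorem circ_const {k κ K₀ E : Type} [Field k] [Field κ] [Field K₀] [Field E] [Algebra k κ]
    [Algebra k E] [Algebra κ K₀] [Algebra κ E] [Algebra K₀ E] [IsScalarTower κ K₀ E]
    [IsScalarTower k κ E] [FiniteDimensional K₀ E] [CharZero κ] [IsAlgClosed κ] [IsFF κ K₀]
    [IsFF κ E] {x₀ : K₀} (hx₀ : κ⟮x₀⟯ = ⊤) {s N m d r : ℕ} {U : Fin (m + 1) → E}
    {c : Fin (m + 1) → k} (hr : Module.finrank K₀ E ≤ r) (hN : NB r s ≤ N)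
    (h : IsCirc k s N m d U c) (a b : Fin (m + 1)) :
    ∃ t : κ, (c a • U a ^ d) / (c b • U b ^ d) = algebraMap κ E t := by
  classical
  obtain ⟨g, hg⟩ : ∃ g : Fin (m + 1) → E, g = fun j => c j • U j ^ d := ⟨_, rfl⟩
  have hg0 : ∀ j, g j ≠ 0 := by
    intro j
    rw [hg]
    exact smul_ne_zero (h.hc j) (pow_ne_zero _ (h.hU j))
  have hgsum : ∑ j, g j = 0 := by
    rw [hg]
    exact h.sum
  have hglin : LinearIndependent k (fun l => g ((Fin.last m).succAbove l)) := by
    rw [hg]
    exact h.lin
  obtain ⟨R, hR, hh, hs⟩ := blocks (k := κ) (K := K₀) (J := Fin (m + 1)) (N := d) (s := s) hr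
    (by rw [Fintype.card_fin]; exact h.ms) (hN.trans h.Nd) g hg0 hgsum (fun j =>
      ⟨algebraMap k κ (c j), U j, by
        rw [hg]
        change c j • U j ^ d = _
        rw [Algebra.smul_def, IsScalarTower.algebraMap_apply k κ E]⟩)
  have hχ : max (canDeg κ K₀) 0 = 0 := by
    rw [Pool.Agent.W619.PQ.canDeg_rational hx₀]
    rfl
  have hsub : ∀ A : Finset (Fin (m + 1)), A.Nonempty → Fin.last m ∉ A → ∑ j ∈ A, g j ≠ 0 := by
    intro A hA hl h0
    rw [Fintype.linearIndependent_iff] at hglin
    have h1 := hglin (fun l => if (Fin.last m).succAbove l ∈ A then 1 else 0) (by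
      have h2 : ∑ j, (if j ∈ A then (1 : k) else 0) • g j = 0 := by
        simp only [ite_smul, one_smul, zero_smul]
        rw [Finset.sum_ite_mem, Finset.univ_inter]
        exact h0
      rw [Fin.sum_univ_succAbove _ (Fin.last m), if_neg hl, zero_smul, zero_add] at h2
      exact h2)
    obtain ⟨j, hj⟩ := hA
    obtain ⟨l, rfl⟩ := Fin.exists_succAbove_eq (x := j) (y := Fin.last m) (by
      rintro rfl
      exact hl hj)
    have h2 := h1 l
    rw [if_pos hj] at h2
    exact one_ne_zero h2
  have hall : ∀ i j, R i j := by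
    intro i
    obtain ⟨A, hA⟩ : ∃ A : Finset (Fin (m + 1)), ∀ j, j ∈ A ↔ R i j :=
      ⟨Finset.univ.filter (R i), fun j => by simp⟩
    have hAs := hs i A hA
    have hAn : A.Nonempty := ⟨i, (hA i).2 (hR.refl i)⟩
    intro j
    by_contra hj
    have hjA : j ∉ A := fun h1 => hj ((hA j).1 h1)
    by_cases hl : Fin.last m ∈ A
    · have h2 : ∑ j ∈ Aᶜ, g j = 0 := by
        have h3 := Finset.sum_add_sum_compl A g
        rw [hAs, hgsum, zero_add] at h3
        exact h3
      exact hsub Aᶜ ⟨j, Finset.mem_compl.2 hjA⟩ (fun h4 => Finset.mem_compl.1 h4 hl) h2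
    · exact hsub A hAn hl hAs
  have h1 := hh a b (hall a b)
  rw [hχ, mul_zero, mul_zero, mul_zero] at h1
  obtain ⟨t, ht⟩ := const_of_hgt h1
  refine ⟨t, ?_⟩
  rw [← ht, hg]

theorem ratio_map {k A B : Type} [Field k] [Field A] [Field B] [Algebra k A] [Algebra k B]
    (φ : A →ₐ[k] B) (c c' : k) (u u' : A) (d : ℕ) :
    φ ((c • u ^ d) / (c' • u' ^ d)) = (c • φ u ^ d) / (c' • φ u' ^ d) := by
  rw [map_div₀, map_smul, map_smul, map_pow, map_pow]

/-- the composite field -/
theorem comp_field {L K Ω K₀ : Type} [Field L] [Field K] [Field Ω] [Field K₀] [Algebra L K]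
    [Algebra L Ω] [Algebra L K₀] [Algebra K₀ Ω] [IsScalarTower L K₀ Ω] [CharZero L]
    [FiniteDimensional L K] (τ : K →ₐ[L] Ω) :
    ∃ E : IntermediateField K₀ Ω, FiniteDimensional K₀ E ∧
      Module.finrank K₀ E ≤ Module.finrank L K ∧ ∀ z, τ z ∈ E := by
  obtain ⟨θ, hθ⟩ := Field.exists_primitive_element L K
  have hint : IsIntegral L θ := Algebra.IsIntegral.isIntegral θ
  have hint1 : IsIntegral L (τ θ) := hint.map τ
  have hint2 : IsIntegral K₀ (τ θ) := hint1.tower_top
  refine ⟨K₀⟮τ θ⟯, adjoin.finiteDimensional hint2, ?_, fun z => ?_⟩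
  · rw [adjoin.finrank hint2, ← (Field.primitive_element_iff_minpoly_natDegree_eq L θ).1 hθ]
    have h1 : minpoly K₀ (τ θ) ∣ (minpoly L θ).map (algebraMap L K₀) := by
      apply minpoly.dvd
      rw [Polynomial.aeval_map_algebraMap, Polynomial.aeval_algHom_apply, minpoly.aeval, map_zero]
    have h2 := Polynomial.natDegree_le_of_dvd h1
      (Polynomial.map_ne_zero (minpoly.ne_zero hint))
    rwa [Polynomial.natDegree_map] at h2
  · have hz : z ∈ L⟮θ⟯ := by rw [hθ]; exact mem_top
    rw [← IntermediateField.mem_toSubalgebra, adjoin_simple_toSubalgebra_of_isAlgebraic hint.isAlgebraic,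
      Algebra.adjoin_singleton_eq_range_aeval] at hz
    obtain ⟨p, rfl⟩ := hz
    change τ (Polynomial.aeval θ p) ∈ _
    rw [← Polynomial.aeval_algHom_apply, ← Polynomial.aeval_map_algebraMap K₀]
    exact Polynomial.aeval_mem_adjoin_singleton K₀ (τ θ) |> fun h =>
      IntermediateField.algebra_adjoin_le_adjoin _ _ h

/-- derivations vanish on elements which are algebraic over constants -/
theorem der_alg {k K : Type} [Field k] [CharZero k] [Field K] [Algebra k K] (D : Derivation k K K)
    (C : IntermediateField k K) (hC : ∀ c ∈ C, D c = 0) {f : K} (hf : IsAlgebraic C f) :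
    D f = 0 := by
  have hle : C ≤ consts D := hC
  let _ : Algebra C (consts D) := (IntermediateField.inclusion hle).toRingHom.toAlgebra
  have t1 : IsScalarTower C (consts D) K := IsScalarTower.of_algebraMap_eq fun x => rfl
  have hf' : IsAlgebraic (consts D) f := hf.tower_top (consts D)
  have hint : IsIntegral (consts D) f := hf'.isIntegral
  have hchar : CharZero (consts D) := charZero_of_injective_algebraMap
    (algebraMap k (consts D)).injective
  have h1 : overConsts D (Polynomial.aeval f (minpoly (consts D) f)) = 0 := by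
    rw [minpoly.aeval, map_zero]
  rw [Derivation.map_aeval] at h1
  have h2 : Polynomial.aeval f (Polynomial.derivative (minpoly (consts D) f)) ≠ 0 :=
    (minpoly.irreducible hint).separable.aeval_derivative_ne_zero (minpoly.aeval _ _)
  rw [smul_eq_mul, overConsts_apply] at h1
  exact (mul_eq_zero.mp h1).resolve_left h2

theorem hgt : StmHgt := by
  intro k _ _ _ K L _ _ _ _ _ _ _ s N r hr hN x hx δ ⟨C, σ, hσ, htop, hC⟩ i
  classical
  have hK : CharZero K := charZero_of_injective_algebraMap (algebraMap k K).injective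
  have hL : CharZero L := charZero_of_injective_algebraMap (algebraMap k L).injective
  have hCc : CharZero C := charZero_of_injective_algebraMap (algebraMap k C).injective
  let Ω := AlgebraicClosure K
  have t1 : IsScalarTower C K Ω := inferInstance
  have t2 : IsScalarTower L K Ω := inferInstance
  have t3 : IsScalarTower k L Ω := IsScalarTower.of_algebraMap_eq fun x => by
    rw [IsScalarTower.algebraMap_apply L K Ω, ← IsScalarTower.algebraMap_apply k L K]
    rfl
  let κ : IntermediateField C Ω := algebraicClosure C Ω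
  have hκ : IsAlgClosed κ := (IsAlgClosure.isAlgClosed C : IsAlgClosed (algebraicClosure C Ω))
  have hκ0 : CharZero κ := charZero_of_injective_algebraMap (algebraMap C κ).injective
  have halg : Algebra.IsAlgebraic C κ := inferInstance
  obtain ⟨σ', hσ'⟩ : ∃ σ' : Ω, σ' = algebraMap K Ω σ := ⟨_, rfl⟩
  have hσt : Transcendental κ σ' := by
    intro h
    apply hσ
    have h1 : IsAlgebraic C σ' := h.restrictScalars C
    rw [hσ'] at h1
    exact (isAlgebraic_algebraMap_iff (algebraMap K Ω).injective).1 h1
  let K₀ : IntermediateField κ Ω := κ⟮σ'⟯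
  let x₀ : K₀ := AdjoinSimple.gen κ σ'
  have hx₀ : κ⟮x₀⟯ = ⊤ := by
    apply IntermediateField.lift_injective K₀
    rw [IntermediateField.lift_adjoin_simple, IntermediateField.lift_top]
    rfl
  have hx₀t : Transcendental κ x₀ := by
    intro h
    apply hσt
    exact h.algHom K₀.val
  have hff : IsFF κ K₀ := by
    refine IsFF.of_finite (f := x₀) hx₀t ?_
    rw [hx₀]
    exact Module.Finite.of_surjective (Algebra.linearMap (⊤ : IntermediateField κ K₀) K₀)
      fun z => ⟨⟨z, trivial⟩, rfl⟩
  -- the field `L` in `K₀`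
  have hKK₀ : ∀ z : K, algebraMap K Ω z ∈ K₀ := by
    intro z
    have hz : z ∈ C⟮σ⟯ := by rw [htop]; exact mem_top
    induction hz using IntermediateField.adjoin_induction with
    | mem z hz =>
      rw [Set.mem_singleton_iff] at hz
      rw [hz, ← hσ']
      exact mem_adjoin_simple_self κ σ'
    | algebraMap c =>
      have h1 : algebraMap K Ω (algebraMap C K c) = algebraMap κ Ω (algebraMap C κ c) := by
        rw [← IsScalarTower.algebraMap_apply C K Ω, ← IsScalarTower.algebraMap_apply C κ Ω]
      rw [h1]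
      exact K₀.algebraMap_mem _
    | add x y _ _ hx hy => rw [map_add]; exact add_mem hx hy
    | inv x _ hx => rw [map_inv₀]; exact inv_mem hx
    | mul x y _ _ hx hy => rw [map_mul]; exact mul_mem hx hy
  let jL : L →+* K₀ := (algebraMap L Ω).codRestrict K₀ fun z => by
    rw [IsScalarTower.algebraMap_apply L K Ω]
    exact hKK₀ _
  let _ : Algebra L K₀ := jL.toAlgebra
  have t4 : IsScalarTower L K₀ Ω := IsScalarTower.of_algebraMap_eq fun z => rfl
  -- the roots
  have hroots : ∀ ρ ∈ ((minpoly L x).map (algebraMap L Ω)).roots, ρ ∈ (algebraMap κ Ω).range := by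
    intro ρ hρ
    have h1 : ρ ∈ (minpoly L x).rootSet Ω := by
      rw [Polynomial.mem_rootSet]
      refine ⟨minpoly.ne_zero (Algebra.IsIntegral.isIntegral x), ?_⟩
      rw [Polynomial.mem_roots (Polynomial.map_ne_zero
        (minpoly.ne_zero (Algebra.IsIntegral.isIntegral x))), Polynomial.IsRoot.def,
        Polynomial.eval_map_algebraMap] at hρ
      exact hρ
    rw [← Algebra.IsAlgebraic.range_eval_eq_rootSet_minpoly Ω x] at h1
    obtain ⟨τ, rfl⟩ := h1
    change τ x ∈ _
    obtain ⟨E, hfd, hfr, hE⟩ := comp_field (K₀ := K₀) τ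
    have hffE : IsFF κ E := isFF_of_finite (F := K₀)
    obtain ⟨m, d, U, c, a, b, hcirc, rfl⟩ := hx
    let τk : K →ₐ[k] Ω := τ.restrictScalars k
    let _ : Algebra k E := ((algebraMap κ E).comp (algebraMap k κ)).toAlgebra
    have t5 : IsScalarTower k κ E := IsScalarTower.of_algebraMap_eq fun z => rfl
    have t7 : IsScalarTower κ E Ω := IsScalarTower.of_algebraMap_eq fun z => rfl
    have t6 : IsScalarTower k E Ω := IsScalarTower.of_algebraMap_eq fun z => by
      rw [IsScalarTower.algebraMap_apply k κ E, ← IsScalarTower.algebraMap_apply κ E Ω]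
      rfl
    let vE : E →ₐ[k] Ω := IsScalarTower.toAlgHom k E Ω
    have hcE : IsCirc k s N m d (fun j => (⟨τ (U j), hE _⟩ : E)) c := by
      refine IsCirc.comap vE ?_
      exact hcirc.map τk
    obtain ⟨t, ht⟩ := circ_const (κ := κ) (K₀ := K₀) (E := E) hx₀ (hfr.trans hr) hN hcE a b
    refine ⟨t, ?_⟩
    have h2 := congrArg (vE : E → Ω) ht
    rw [ratio_map vE] at h2
    have h3 := ratio_map τk (c a) (c b) (U a) (U b) d
    refine Eq.trans (IsScalarTower.algebraMap_apply κ E Ω t) (Eq.trans h2.symm h3.symm)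
  have hsp : ((minpoly L x).map (algebraMap L Ω)).Splits := IsAlgClosed.splits _
  have hmon : ((minpoly L x).map (algebraMap L Ω)).Monic :=
    (minpoly.monic (Algebra.IsIntegral.isIntegral x)).map _
  have hlift := hsp.mem_lift_of_roots_mem_range hmon (algebraMap κ Ω) hroots
  obtain ⟨q, hq⟩ := (Polynomial.mem_lifts _).1 hlift
  have hcoef : algebraMap K Ω (algebraMap L K ((minpoly L x).coeff i)) =
      algebraMap κ Ω (q.coeff i) := by
    have h1 := congrArg (fun p : Polynomial Ω => p.coeff i) hq
    simp only [Polynomial.coeff_map] at h1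
    rw [h1, IsScalarTower.algebraMap_apply L K Ω]
  have halgC : IsAlgebraic C (algebraMap L K ((minpoly L x).coeff i)) := by
    have h1 : IsAlgebraic C (q.coeff i) := halg.isAlgebraic _
    have h2 : IsAlgebraic C (algebraMap κ Ω (q.coeff i)) := h1.algebraMap
    rw [← hcoef] at h2
    exact (isAlgebraic_algebraMap_iff (algebraMap K Ω).injective).1 h2
  exact der_alg δ C hC halgC

end Pool.Agent.Y221.CF
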