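import Pool.Agent.TH466.QT.Fin
import Pool.Agent.Y221.PB.Top

/-!
Project CF: statements of the jobs.
-/

set_option autoImplicit false
set_option maxHeartbeats 400000
set_option linter.overlappingInstances false
set_option linter.unusedSectionVars false

open FF IntermediateField Pool.Agent.W603.LV

namespace Pool.Agent.Y221.CF

open Pool.Agent.W602.GT Pool.Agent.TH466.QG Pool.Agent.TH466.QT
open Pool.Agent.Y221.AB (NB)

variable {k : Type} [Field k] [CharZero k] [IsAlgClosed k]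

/-- A vector field which is tangent to the fibres of a ruling: `K = C(σ)`, and `C` consists of
constants. -/
def RulDer (k : Type) [Field k] {K : Type} [Field K] [Algebra k K] (δ : Derivation k K K) : Prop :=
  ∃ (C : IntermediateField k K) (σ : K), Transcendental C σ ∧ C⟮σ⟯ = ⊤ ∧ ∀ c ∈ C, δ c = 0

/-- job WAR -/
def StmWar : Prop := ∀ (k : Type) [Field k] [CharZero k] [IsAlgClosed k] (n : ℕ) (ι : Type)
    (F : ι → MvPolynomial (Fin (n + 1)) k) (s N : ℕ) (_ : ∀ e, IsPowSum s N (F e)) (_ : 1 ≤ N)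
    (K : Type) [Field K] [Algebra k K] (w : ℕ) (y : Fin (n + 1) → K) (_ : SubVar F K w y)
    (_ : IsComponent F y) (D : Derivation k K K) (_ : ∀ x ∈ cr k K s N, D x = 0),
    ∃ (t : ℕ) (c : Fin t → K) (δ : Fin t → Derivation k K K), (∀ i, RulDer k (δ i)) ∧
      ∀ x, D x = ∑ i, c i * δ i x

/-- job SPA -/
def StmSpa : Prop := ∀ (k : Type) [Field k] [CharZero k] [IsAlgClosed k] (n : ℕ) (ι : Type)
    (F : ι → MvPolynomial (Fin (n + 1)) k) (s N : ℕ) (_ : ∀ e, IsPowSparse ∅ s N (F e))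
    (K : Type) [Field K] [Algebra k K] (w : ℕ) (y : Fin (n + 1) → K) (_ : SubVar F K w y)
    (_ : IsComponent F y) (D : Derivation k K K) (_ : ∀ x ∈ cr k K s N, D x = 0),
    ∃ (t : ℕ) (c : Fin t → K) (δ : Fin t → Derivation k K K), (∀ i, RulDer k (δ i)) ∧
      ∀ x, D x = ∑ i, c i * δ i x

/-- job HGT -/
def StmHgt : Prop := ∀ (k : Type) [Field k] [CharZero k] [IsAlgClosed k] (K L : Type) [Field K]
    [Field L] [Algebra k K] [Algebra k L] [Algebra L K] [IsScalarTower k L K]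
    [FiniteDimensional L K] (s N r : ℕ) (_ : Module.finrank L K ≤ r) (_ : NB r s ≤ N)
    (x : K) (_ : x ∈ cr k K s N) (δ : Derivation k K K) (_ : RulDer k δ) (i : ℕ),
    δ (algebraMap L K ((minpoly L x).coeff i)) = 0

/-- job SUB -/
def StmSub : Prop := ∀ (k : Type) [Field k] [CharZero k] [IsAlgClosed k] (K L : Type) [Field K]
    [Field L] [Algebra k K] [Algebra k L] [Algebra L K] [IsScalarTower k L K]
    [FiniteDimensional L K] (s N r w b : ℕ) (_ : 1 ≤ N) (_ : Module.finrank L K ≤ r)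
    (_ : Algebra.trdeg k K = w) (_ : Algebra.trdeg k (E0 k K s N) = b) (_ : 1 ≤ b)
    (_ : r * (w * ((s + 4) * ((s - 1) * (s - 2) / 2))) ≤ N)
    (_ : ∀ x ∈ cr k K s N, ∀ i, algebraMap L K ((minpoly L x).coeff i) ∈ E0 k K s N),
    b ≤ w ∧ ∃ M : IntermediateField k L, GeneralType k M b

end Pool.Agent.Y221.CF
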